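import Mathlib
import Pool.Agent.H.MP_8ef15a_nt.Main

namespace Pool.Agent.Results.MP_8ef15a_nt.Full

def Antipal (n : ℕ) : Prop :=
  0 < n ∧ ∀ i j : ℕ, i + j + 1 = (Nat.digits 3 n).length →
    (Nat.digits 3 n).getD i 0 + (Nat.digits 3 n).getD j 0 = 2

theorem result : ∀ N : ℕ, 0 < N → N ≠ 24 → N ≠ 37 → N ≠ 49 → N ≠ 117 → N ≠ 421 →
    Antipal N ∨ (∃ a b, Antipal a ∧ Antipal b ∧ N = a + b) ∨
      (∃ a b c, Antipal a ∧ Antipal b ∧ Antipal c ∧ N = a + b + c) := by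
  intro N h0 h1 h2 h3 h4 h5
  have key : ∀ m, Pool.Agent.H.MP_8ef15a_nt.AP m → Antipal m := fun m hm =>
    ⟨(Pool.Agent.H.MP_8ef15a_nt.AP_good m hm).1,
      Pool.Agent.H.MP_8ef15a_nt.good_idx _ (Pool.Agent.H.MP_8ef15a_nt.AP_good m hm).2⟩
  obtain ⟨x, y, z, hx, hy, hz, rfl⟩ := Pool.Agent.H.MP_8ef15a_nt.main N h1 h2 h3 h4 h5
  rcases hx with rfl | hx <;> rcases hy with rfl | hy <;> rcases hz with rfl | hz
  · omega
  · exact Or.inl (by simpa using key _ hz)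
  · exact Or.inl (by simpa using key _ hy)
  · exact Or.inr (Or.inl ⟨y, z, key _ hy, key _ hz, by ring⟩)
  · exact Or.inl (by simpa using key _ hx)
  · exact Or.inr (Or.inl ⟨x, z, key _ hx, key _ hz, by ring⟩)
  · exact Or.inr (Or.inl ⟨x, y, key _ hx, key _ hy, by ring⟩)
  · exact Or.inr (Or.inr ⟨x, y, z, key _ hx, key _ hy, key _ hz, rfl⟩)

end Pool.Agent.Results.MP_8ef15a_nt.Full
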